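import Pool.Agent.N353.HVec.Final

set_option autoImplicit false

namespace Pool.Agent.Results.MP_41cc10_co.Increasing

open Filter Polynomial

/-- the matroids on an `m`-element ground set -/
abbrev Labelled (m : ℕ) : Type := {M : Matroid (Fin m) // M.E = Set.univ}

/-- `F_i`: the number of independent sets with `i` elements -/
noncomputable def numIndep {m : ℕ} (M : Matroid (Fin m)) (i : ℕ) : ℕ :=
  Nat.card {I : Finset (Fin m) // M.Indep (I : Set (Fin m)) ∧ I.card = i}

/-- the rank of the matroid -/
noncomputable def rk {m : ℕ} (M : Matroid (Fin m)) : ℕ := M.eRank.toNat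

/-- the polynomial `∑_{i ≤ r} F_i x^i (1 - x)^(r - i)`, with `r` the rank -/
noncomputable def hPoly {m : ℕ} (M : Matroid (Fin m)) : ℤ[X] :=
  ∑ i ∈ Finset.range (rk M + 1), C (numIndep M i : ℤ) * X ^ i * (1 - X) ^ (rk M - i)

/-- the entry `H_i` of the H-vector -/
noncomputable def H {m : ℕ} (M : Matroid (Fin m)) (i : ℕ) : ℤ := (hPoly M).coeff i

/-- the H-vector of almost all matroids is strictly increasing; in particular it is
nondecreasing -/
theorem result :
    Tendsto (fun m : ℕ =>
      (Nat.card {M : Labelled m // ∀ k < rk M.1, H M.1 k < H M.1 (k + 1)} : ℝ) /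
        (Nat.card (Labelled m) : ℝ))
      atTop (nhds 1) := by
  refine (Pool.Agent.N353.Star.transfer
    (fun m M => ∀ k < rk M, H M k < H M (k + 1)) (1 / 30000) (by norm_num) ?_).1
  filter_upwards [eventually_ge_atTop 400] with m hm M r hr hB hG k hk
  have hrk : rk M.1 = r := Pool.Agent.N353.HVec.rank_eq M hB
  rw [hrk] at hk
  unfold H hPoly numIndep
  rw [hrk]
  exact Pool.Agent.N353.HVec.hvec_good hm M hB hG hk

end Pool.Agent.Results.MP_41cc10_co.Increasing
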